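import Mathlib
import Pool.Agent.Y794.DX.Fin

/-!
# The torsion of Drinfeld modules: an explicit uniform bound, for every coefficient ring
-/

set_option autoImplicit false

namespace Pool.Agent.Results.MP_43acf5_nt.ExplicitBoundEveryRing

open Polynomial

universe u v w

/-- The exponent `E(R, d) = (9 * 2 ^ (d !) * (R + 3) * (R + d + (d !) ^ 2 + 1)) ^ 2`. -/
def E (R d : ℕ) : ℕ :=
  (9 * 2 ^ d.factorial * (R + 3) * (R + d + d.factorial * d.factorial + 1)) ^ 2

/-- The map `φ_T(x) = T x + g_1 x^q + ... + g_r x^(q^r)` on a field `L` containing `F_q(T)`. -/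
noncomputable def phiT (Fq L : Type u) [Field Fq] [Fintype Fq] [Field L] [Algebra (RatFunc Fq) L]
    (r : ℕ) (g : ℕ → L) (x : L) : L :=
  algebraMap (RatFunc Fq) L RatFunc.X * x +
    ∑ i ∈ Finset.Icc 1 r, g i * x ^ (Fintype.card Fq ^ i)

/-- The map `φ_a(x) = ∑ j, a_j φ_T^j(x)` for a polynomial `a = ∑ j, a_j T^j` in `F_q[T]`,
where `φ_T^j` is the `j`-fold composition. -/
noncomputable def phi (Fq L : Type u) [Field Fq] [Fintype Fq] [Field L] [Algebra (RatFunc Fq) L]
    (r : ℕ) (g : ℕ → L) (a : Fq[X]) (x : L) : L :=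
  ∑ j ∈ Finset.range (a.natDegree + 1),
    algebraMap (RatFunc Fq) L (RatFunc.C (a.coeff j)) * (phiT Fq L r g)^[j] x

/-- The torsion submodule: the `x` in `L` with `φ_a(x) = 0` for some nonzero `a` in `F_q[T]`. -/
def torsion (Fq L : Type u) [Field Fq] [Fintype Fq] [Field L] [Algebra (RatFunc Fq) L]
    (r : ℕ) (g : ℕ → L) : Set L :=
  {x : L | ∃ a : Fq[X], a ≠ 0 ∧ phi Fq L r g a x = 0}

/-- A Drinfeld `A`-module over `L`, where `A` is a subring of an extension `K` of `F_q(T)` which
contains `F_q[T]`, and `L` is an extension of `K`: a family of maps `φ_a : L → L`, `a` in `A`, given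
by polynomials `a x + g_1 x^q + ... + g_n x^(q^n)` over `L`, with `φ_1(x) = x`,
`φ_(a + b)(x) = φ_a(x) + φ_b(x)`, `φ_(a b)(x) = φ_a(φ_b(x))` and `φ_c(x) = c x` for `c` in `F_q`. -/
structure IsDrinfeld (Fq K L : Type u) [Field Fq] [Fintype Fq] [Field K] [Algebra (RatFunc Fq) K]
    [Field L] [Algebra K L] (A : Subring K)
    (hA : ∀ a : Fq[X], algebraMap (RatFunc Fq) K (algebraMap Fq[X] (RatFunc Fq) a) ∈ A)
    (φ : A → L → L) : Prop where
  one : ∀ x, φ 1 x = x
  add : ∀ a b x, φ (a + b) x = φ a x + φ b x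
  mul : ∀ a b x, φ (a * b) x = φ a (φ b x)
  const : ∀ (c : Fq) (x : L), φ ⟨_, hA (C c)⟩ x =
    algebraMap K L (algebraMap (RatFunc Fq) K (algebraMap Fq[X] (RatFunc Fq) (C c))) * x
  poly : ∀ a, ∃ (n : ℕ) (g : ℕ → L), ∀ x, φ a x =
    algebraMap K L (a : K) * x + ∑ i ∈ Finset.Icc 1 n, g i * x ^ (Fintype.card Fq ^ i)

section

variable (Fq L : Type u) [Field Fq] [Fintype Fq] [Field L] [Algebra (RatFunc Fq) L]

/-- The orbit of a torsion point is finite. -/
lemma torsion_preper (r : ℕ) (g : ℕ → L) (x : L) (hx : x ∈ torsion Fq L r g) :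
    (Set.range (fun n : ℕ => (phiT Fq L r g)^[n] x)).Finite := by
  classical
  obtain ⟨a, ha, hax⟩ := hx
  letI : Algebra Fq L := ((algebraMap (RatFunc Fq) L).comp RatFunc.C).toAlgebra
  have halg : ∀ c : Fq, algebraMap Fq L c = algebraMap (RatFunc Fq) L (RatFunc.C c) :=
    fun c => rfl
  obtain ⟨p, hchar⟩ := CharP.exists Fq
  obtain ⟨m, hp, hcard⟩ := FiniteField.card Fq p
  haveI : Fact p.Prime := ⟨hp⟩
  haveI : CharP L p := charP_of_injective_algebraMap (algebraMap Fq L).injective p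
  have hadd : ∀ y z : L, phiT Fq L r g (y + z) = phiT Fq L r g y + phiT Fq L r g z := by
    intro y z
    unfold phiT
    have h1 : ∀ i, (y + z) ^ (Fintype.card Fq ^ i) =
        y ^ (Fintype.card Fq ^ i) + z ^ (Fintype.card Fq ^ i) := by
      intro i
      rw [hcard, ← pow_mul, add_pow_char_pow]
    simp only [h1, mul_add, Finset.sum_add_distrib]
    ring
  have hsmul : ∀ (c : Fq) (y : L), phiT Fq L r g (c • y) = c • phiT Fq L r g y := by
    intro c y
    unfold phiT
    rw [Algebra.smul_def, Algebra.smul_def, mul_add, Finset.mul_sum]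
    congr 1
    · ring
    · refine Finset.sum_congr rfl fun i _ => ?_
      rw [mul_pow, ← map_pow, FiniteField.pow_card_pow]
      ring
  let F : L →ₗ[Fq] L := { toFun := phiT Fq L r g, map_add' := hadd, map_smul' := hsmul }
  set n := a.natDegree with hn
  set O : Set L := (fun j : ℕ => (phiT Fq L r g)^[j] x) '' (Finset.range n : Set ℕ) with hO
  set U : Submodule Fq L := Submodule.span Fq O with hU
  haveI : FiniteDimensional Fq U :=
    FiniteDimensional.span_of_finite _ ((Finset.finite_toSet _).image _)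
  haveI : Finite U := Module.finite_of_finite Fq
  have hOj : ∀ j, j < n → (phiT Fq L r g)^[j] x ∈ U := by
    intro j hj
    exact Submodule.subset_span ⟨j, by simpa using hj, rfl⟩
  have hlc : a.coeff n ≠ 0 := by
    rw [hn, coeff_natDegree]
    exact leadingCoeff_ne_zero.2 ha
  have hOn : (phiT Fq L r g)^[n] x ∈ U := by
    unfold phi at hax
    rw [← hn, Finset.sum_range_succ] at hax
    have h1 : (a.coeff n) • (phiT Fq L r g)^[n] x ∈ U := by
      have h2 : (a.coeff n) • (phiT Fq L r g)^[n] x =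
          - ∑ j ∈ Finset.range n, (a.coeff j) • (phiT Fq L r g)^[j] x := by
        rw [Algebra.smul_def, halg]
        simp only [Algebra.smul_def, halg]
        linear_combination hax
      rw [h2]
      refine U.neg_mem (U.sum_mem fun j hj => U.smul_mem _ (hOj j ?_))
      simpa using hj
    have h3 := U.smul_mem (a.coeff n)⁻¹ h1
    rwa [smul_smul, inv_mul_cancel₀ hlc, one_smul] at h3
  have hstab : ∀ y ∈ U, phiT Fq L r g y ∈ U := by
    intro y hy
    have h1 : U ≤ U.comap F := by
      rw [hU, Submodule.span_le]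
      rintro _ ⟨j, hj, rfl⟩
      show phiT Fq L r g ((phiT Fq L r g)^[j] x) ∈ U
      rw [← Function.iterate_succ_apply' (phiT Fq L r g) j x]
      have hj' : j < n := by simpa using hj
      rcases Nat.lt_or_ge (j + 1) n with h2 | h2
      · exact hOj _ h2
      · have h3 : j + 1 = n := by omega
        show (phiT Fq L r g)^[j + 1] x ∈ U
        rw [h3]
        exact hOn
    exact h1 hy
  have hall : ∀ j, (phiT Fq L r g)^[j] x ∈ U := by
    intro j
    induction j with
    | zero =>
      rcases Nat.eq_zero_or_pos n with h0 | h0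
      · rw [h0] at hOn
        exact hOn
      · exact hOj 0 h0
    | succ j ih =>
      rw [Function.iterate_succ_apply']
      exact hstab _ ih
  refine (Set.toFinite (U : Set L)).subset ?_
  rintro _ ⟨j, rfl⟩
  exact hall j

/-- the bound for the torsion submodule -/
lemma torsion_bound (p m r d : ℕ) (hp : p.Prime) (hm : 0 < m) (hr : 1 ≤ r)
    (hq : Fintype.card Fq = p ^ m) [FiniteDimensional (RatFunc Fq) L]
    (hd : Module.finrank (RatFunc Fq) L ≤ d) (g : ℕ → L) (hg : g r ≠ 0) :
    (torsion Fq L r g).Finite ∧ (torsion Fq L r g).ncard ≤ p ^ E (m * r) d := by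
  obtain ⟨p', hchar⟩ := CharP.exists Fq
  obtain ⟨m', hp', hcard⟩ := FiniteField.card Fq p'
  have hpp : p' = p := by
    have h1 : p' ∣ p ^ m := by
      rw [← hq, hcard]
      exact dvd_pow_self _ m'.ne_zero
    exact (Nat.prime_dvd_prime_iff_eq hp' hp).1 (hp'.dvd_of_dvd_pow h1)
  subst hpp
  obtain ⟨h2, h3⟩ := Pool.Agent.Y794.DX.preper_bound_all p' m r d hp hm hr Fq L hd 0 g hg
  have h4 : (fun x => (0 : L) + (algebraMap (RatFunc Fq) L RatFunc.X * x +
      ∑ i ∈ Finset.Icc 1 r, g i * x ^ ((p' ^ m) ^ i))) = phiT Fq L r g := by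
    funext x
    unfold phiT
    rw [zero_add, hq]
  rw [h4] at h2 h3
  have h5 : torsion Fq L r g ⊆
      {x : L | (Set.range (fun n : ℕ => (phiT Fq L r g)^[n] x)).Finite} :=
    fun x hx => torsion_preper Fq L r g x hx
  exact ⟨h2.subset h5, (Set.ncard_le_ncard h5 h2).trans h3⟩

end

section

variable {Fq K L : Type u} [Field Fq] [Fintype Fq] [Field K] [Algebra (RatFunc Fq) K]
    [Field L] [Algebra K L] {A : Subring K}
    {hA : ∀ a : Fq[X], algebraMap (RatFunc Fq) K (algebraMap Fq[X] (RatFunc Fq) a) ∈ A}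
    {φ : A → L → L}

/-- the image of a polynomial in `A` -/
noncomputable def inA (hA : ∀ a : Fq[X], algebraMap (RatFunc Fq) K (algebraMap Fq[X] (RatFunc Fq) a) ∈ A)
    (a : Fq[X]) : A := ⟨_, hA a⟩

lemma inA_add (a b : Fq[X]) : inA hA (a + b) = inA hA a + inA hA b := by
  apply Subtype.ext
  show algebraMap (RatFunc Fq) K (algebraMap Fq[X] (RatFunc Fq) (a + b)) = _
  rw [map_add, map_add]
  rfl

lemma inA_mul (a b : Fq[X]) : inA hA (a * b) = inA hA a * inA hA b := by
  apply Subtype.ext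
  show algebraMap (RatFunc Fq) K (algebraMap Fq[X] (RatFunc Fq) (a * b)) = _
  rw [map_mul, map_mul]
  rfl

lemma inA_one : inA hA 1 = 1 := by
  apply Subtype.ext
  show algebraMap (RatFunc Fq) K (algebraMap Fq[X] (RatFunc Fq) 1) = _
  rw [map_one, map_one]
  rfl

lemma IsDrinfeld.zero (h : IsDrinfeld Fq K L A hA φ) (x : L) : φ 0 x = 0 := by
  have h1 := h.add 0 0 x
  rw [add_zero] at h1
  exact left_eq_add.1 h1

lemma IsDrinfeld.at_zero (h : IsDrinfeld Fq K L A hA φ) (a : A) : φ a 0 = 0 := by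
  obtain ⟨n, g, hg⟩ := h.poly a
  rw [hg, mul_zero, zero_add]
  refine Finset.sum_eq_zero fun i _ => ?_
  rw [zero_pow (pow_ne_zero _ Fintype.card_ne_zero), mul_zero]

lemma IsDrinfeld.pow (h : IsDrinfeld Fq K L A hA φ) (a : A) (j : ℕ) (x : L) :
    φ (a ^ j) x = (φ a)^[j] x := by
  induction j with
  | zero => rw [pow_zero, h.one]; rfl
  | succ j ih => rw [pow_succ', h.mul, ih, Function.iterate_succ_apply']

lemma IsDrinfeld.sum (h : IsDrinfeld Fq K L A hA φ) (s : Finset ℕ) (f : ℕ → A) (x : L) :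
    φ (∑ j ∈ s, f j) x = ∑ j ∈ s, φ (f j) x := by
  classical
  induction s using Finset.induction_on with
  | empty => simp [h.zero]
  | insert a s ha ih => rw [Finset.sum_insert ha, Finset.sum_insert ha, h.add, ih]

lemma inA_sum (s : Finset ℕ) (f : ℕ → Fq[X]) : inA hA (∑ j ∈ s, f j) = ∑ j ∈ s, inA hA (f j) := by
  classical
  induction s using Finset.induction_on with
  | empty =>
    apply Subtype.ext
    show algebraMap (RatFunc Fq) K (algebraMap Fq[X] (RatFunc Fq) _) = _
    simp
  | insert a s ha ih => rw [Finset.sum_insert ha, Finset.sum_insert ha, inA_add, ih]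

lemma inA_pow (a : Fq[X]) (j : ℕ) : inA hA (a ^ j) = inA hA a ^ j := by
  induction j with
  | zero => rw [pow_zero, pow_zero, inA_one]
  | succ j ih => rw [pow_succ, pow_succ, inA_mul, ih]

/-- `φ_(a(T))` as a combination of iterates of `φ_T` -/
lemma IsDrinfeld.poly_eq (h : IsDrinfeld Fq K L A hA φ) (a : Fq[X]) (x : L) :
    φ (inA hA a) x = ∑ j ∈ Finset.range (a.natDegree + 1),
      algebraMap K L (algebraMap (RatFunc Fq) K (RatFunc.C (a.coeff j))) *
        (φ (inA hA X))^[j] x := by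
  conv_lhs => rw [a.as_sum_range_C_mul_X_pow]
  rw [inA_sum, h.sum]
  refine Finset.sum_congr rfl fun j _ => ?_
  rw [inA_mul, h.mul, inA_pow, h.pow]
  exact h.const _ _

/-- A nonzero integral element of `A` divides the image of a nonzero polynomial. -/
lemma exists_mul (a : A) (ha : a ≠ 0)
    (hint : ((algebraMap (RatFunc Fq) K).comp (algebraMap Fq[X] (RatFunc Fq))).IsIntegralElem
      (a : K)) : ∃ (P : Fq[X]) (b : A), P ≠ 0 ∧ inA hA P = b * a := by
  letI : Algebra Fq[X] K := ((algebraMap (RatFunc Fq) K).comp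
    (algebraMap Fq[X] (RatFunc Fq))).toAlgebra
  have halg : ∀ c : Fq[X], algebraMap Fq[X] K c =
    algebraMap (RatFunc Fq) K (algebraMap Fq[X] (RatFunc Fq) c) := fun c => rfl
  have hint' : IsIntegral Fq[X] (a : K) := hint
  have ha' : (a : K) ≠ 0 := fun h => ha (Subtype.ext h)
  set M := minpoly Fq[X] (a : K) with hM
  have hMm : M.Monic := minpoly.monic hint'
  have h0 : M.coeff 0 ≠ 0 := by
    intro h
    have h1 : M.divX * X = M := by
      conv_rhs => rw [← M.divX_mul_X_add]
      rw [h, C_0, add_zero]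
    have h2 : M.divX.Monic := Monic.of_mul_monic_right monic_X (by rw [h1]; exact hMm)
    have h3 : aeval (a : K) M.divX = 0 := by
      have h4 : aeval (a : K) M = 0 := minpoly.aeval _ _
      rw [← h1, map_mul, aeval_X] at h4
      exact (mul_eq_zero.1 h4).resolve_right ha'
    have h5 := minpoly.min Fq[X] (a : K) h2 h3
    rw [← hM, degree_eq_natDegree hMm.ne_zero, degree_eq_natDegree h2.ne_zero,
      Nat.cast_le] at h5
    have h6 : M.natDegree = M.divX.natDegree + 1 := by
      conv_lhs => rw [← h1]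
      rw [natDegree_mul h2.ne_zero X_ne_zero, natDegree_X]
    omega
  have hb : aeval (a : K) M.divX ∈ A := by
    rw [aeval_eq_sum_range]
    refine A.sum_mem fun i _ => ?_
    rw [Algebra.smul_def]
    exact A.mul_mem (hA _) (A.pow_mem a.2 _)
  refine ⟨M.coeff 0, -⟨_, hb⟩, h0, ?_⟩
  apply Subtype.ext
  show algebraMap (RatFunc Fq) K (algebraMap Fq[X] (RatFunc Fq) (M.coeff 0)) =
    -(aeval (a : K) M.divX) * a
  have h1 : aeval (a : K) M = 0 := minpoly.aeval _ _
  rw [← M.divX_mul_X_add, map_add, map_mul, aeval_X, aeval_C, halg] at h1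
  linear_combination h1

end

/-- The set `S` is finite with at most `B` elements. -/
def AtMost {L : Type*} (S : Set L) (B : ℕ) : Prop := S.Finite ∧ S.ncard ≤ B

/-- Let `k` be any field of characteristic `p`, `L` an extension of `k(T)` of degree at most `d`,
`q = p ^ m`, `r ≥ 1`. For all `c, g_1, ..., g_r` in `L`, `g_r ≠ 0`, the map
`x ↦ c + T x + g_1 x^q + ... + g_r x^(q^r)` has at most `p ^ E(m r, d)` points with finite orbit
in `L`. -/
def AffineBound : Prop :=
  ∀ (p m r d : ℕ), p.Prime → 0 < m → 1 ≤ r → ∀ (k : Type u) [Field k] [CharP k p] (L : Type v)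
    [Field L] [Algebra (RatFunc k) L] [FiniteDimensional (RatFunc k) L],
    Module.finrank (RatFunc k) L ≤ d → ∀ (c : L) (g : ℕ → L), g r ≠ 0 → ∀ f : L → L,
    (∀ x, f x = c + (algebraMap (RatFunc k) L RatFunc.X * x +
      ∑ i ∈ Finset.Icc 1 r, g i * x ^ ((p ^ m) ^ i))) →
    AtMost {z : L | (Set.range fun n : ℕ => f^[n] z).Finite} (p ^ E (m * r) d)

/-- The torsion submodule of `L` for a Drinfeld `F_q[T]`-module of rank `r ≥ 1` over an extension
`L` of `F_q(T)` of degree at most `d` has at most `p ^ E(m r, d)` elements, `q = p ^ m`. -/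
def TorsionBound : Prop :=
  ∀ (p m r d : ℕ), p.Prime → 0 < m → 1 ≤ r → ∀ (Fq : Type w) [Field Fq] [Fintype Fq],
    Fintype.card Fq = p ^ m → ∀ (L : Type w) [Field L] [Algebra (RatFunc Fq) L]
    [FiniteDimensional (RatFunc Fq) L], Module.finrank (RatFunc Fq) L ≤ d →
    ∀ g : ℕ → L, g r ≠ 0 → AtMost (torsion Fq L r g) (p ^ E (m * r) d)

/-- `φ_T(x) = T x + g_1 x^q + ... + g_R x^(q^R)` with `g_R ≠ 0`. -/
def DegT (Fq K L : Type u) [Field Fq] [Fintype Fq] [Field K] [Algebra (RatFunc Fq) K]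
    [Field L] [Algebra K L] (A : Subring K)
    (hA : ∀ a : Fq[X], algebraMap (RatFunc Fq) K (algebraMap Fq[X] (RatFunc Fq) a) ∈ A)
    (φ : A → L → L) (R : ℕ) : Prop :=
  ∃ g : ℕ → L, g R ≠ 0 ∧ ∀ x, φ ⟨_, hA X⟩ x =
    algebraMap K L (algebraMap (RatFunc Fq) K (algebraMap Fq[X] (RatFunc Fq) X)) * x +
      ∑ i ∈ Finset.Icc 1 R, g i * x ^ (Fintype.card Fq ^ i)

/-- Let `K` be an extension of `F_q(T)` of degree `e` and `A` a ring with `F_q[T] ⊆ A ⊆ K` whose
elements are integral over `F_q[T]`. For every Drinfeld `A`-module over an extension `L` of `K` of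
degree at most `d` for which `φ_T` has degree `q ^ (r e)`, `r ≥ 1` (rank `r`), the `A`-torsion
submodule of `L` has at most `p ^ E(m r e, e d)` elements, `q = p ^ m`. -/
def EveryRing : Prop :=
  ∀ (p m r d : ℕ), p.Prime → 0 < m → 1 ≤ r → ∀ (Fq : Type w) [Field Fq] [Fintype Fq],
    Fintype.card Fq = p ^ m → ∀ (K : Type w) [Field K] [Algebra (RatFunc Fq) K]
    [FiniteDimensional (RatFunc Fq) K] (A : Subring K)
    (hA : ∀ a : Fq[X], algebraMap (RatFunc Fq) K (algebraMap Fq[X] (RatFunc Fq) a) ∈ A),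
    (∀ a ∈ A, ((algebraMap (RatFunc Fq) K).comp
      (algebraMap Fq[X] (RatFunc Fq))).IsIntegralElem a) →
    ∀ (e : ℕ), Module.finrank (RatFunc Fq) K = e →
    ∀ (L : Type w) [Field L] [Algebra K L] [FiniteDimensional K L], Module.finrank K L ≤ d →
    ∀ (φ : A → L → L), IsDrinfeld Fq K L A hA φ → DegT Fq K L A hA φ (r * e) →
    AtMost {x : L | ∃ a : A, a ≠ 0 ∧ φ a x = 0} (p ^ E (m * (r * e)) (e * d))

/-- **Uniform boundedness of the torsion of Drinfeld modules, with explicit bounds**: over all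
constant fields and for affine maps, in the form of the problem, and for every coefficient ring. -/
theorem result : AffineBound.{u, v} ∧ TorsionBound.{w} ∧ EveryRing.{w} := by
  refine ⟨?_, ?_, ?_⟩
  · intro p m r d hp hm hr k _ _ L _ _ _ hd c g hg f hf
    rw [funext hf]
    exact Pool.Agent.Y794.DX.preper_bound_all p m r d hp hm hr k L hd c g hg
  · intro p m r d hp hm hr Fq _ _ hq L _ _ _ hd g hg
    exact torsion_bound Fq L p m r d hp hm hr hq hd g hg
  · rintro p m r d hp hm hr Fq _ _ hq K _ _ _ A hA hint e rfl L _ _ _ hd φ hφ ⟨g, hg, hgφ⟩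
    letI iL : Algebra (RatFunc Fq) L :=
      ((algebraMap K L).comp (algebraMap (RatFunc Fq) K)).toAlgebra
    haveI : IsScalarTower (RatFunc Fq) K L := IsScalarTower.of_algebraMap_eq fun x => rfl
    haveI : FiniteDimensional (RatFunc Fq) L := FiniteDimensional.trans _ K L
    have he : 0 < Module.finrank (RatFunc Fq) K := Module.finrank_pos
    have hdL : Module.finrank (RatFunc Fq) L ≤ Module.finrank (RatFunc Fq) K * d := by
      rw [← Module.finrank_mul_finrank (RatFunc Fq) K L]
      exact Nat.mul_le_mul_left _ hd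
    obtain ⟨h1, h2⟩ := torsion_bound Fq L p m (r * Module.finrank (RatFunc Fq) K) _ hp hm
      (Nat.mul_pos hr he) hq hdL g hg
    have hT : φ (inA hA X) = phiT Fq L (r * Module.finrank (RatFunc Fq) K) g := by
      funext x
      unfold phiT
      rw [← RatFunc.algebraMap_X]
      exact hgφ x
    have hsub : {x : L | ∃ a : A, a ≠ 0 ∧ φ a x = 0} ⊆
        torsion Fq L (r * Module.finrank (RatFunc Fq) K) g := by
      rintro x ⟨a, ha, hax⟩
      obtain ⟨P, b, hP, hPb⟩ := exists_mul (hA := hA) a ha (hint _ a.2)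
      refine ⟨P, hP, ?_⟩
      have h3 := hφ.poly_eq P x
      rw [hPb, hφ.mul, hax, hφ.at_zero, hT] at h3
      unfold phi
      rw [h3]
      rfl
    exact ⟨h1.subset hsub, (Set.ncard_le_ncard hsub h1).trans h2⟩

end Pool.Agent.Results.MP_43acf5_nt.ExplicitBoundEveryRing
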